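import Pool.Agent.Y265.FL.C
import Pool.Agent.Y265.HY.N5

/-!
# The fourth moments of quantum ergodic eigenfunctions in the plane (MP_6b977f_mp)

The plane is `ℂ`; `dx f z`, `dy f z` are the partial derivatives `fderiv ℝ f z 1`,
`fderiv ℝ f z I`, `lap f = dx (dx f) + dy (dy f)`; `TF Ω φ` says that `φ : ℂ → ℝ` is smooth with
compact support contained in `Ω`; `Dp h f = h (∂x f - i ∂y f)`; `W h u k` is `(h(∂x - i∂y))^k u` for
`k ≥ 0` and `(-h(∂x + i∂y))^{-k} u` for `k < 0`. All normalised derivatives of a solution of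
`h²Δu + u = 0` are linear combinations of the `W h u k`, `k ∈ ℤ`. `G a b c d` is the fourth moment
`E[W_a W_b W_c W_d]` of the monochromatic Gaussian random wave.

The theorem describes all local fourth moments of a quantum ergodic sequence of eigenfunctions, up
to errors `o(1)`, with no bound on `L⁴` norms: they differ from the Gaussian values by
`ep a b c d` times a function `δ_n(s/2)` of the total order `s = a + b + c + d` alone, and
`δ_n : ℤ → ℂ` is positive definite, as if it were the sequence of Fourier coefficients of a positive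
measure on the circle of directions (modulo `π`). For `a = b = c = d = 0` one gets
`δ_n(0) = ∫ φ u⁴ - 3 ∫ φ + o(1)`, so that all the fourth moments are within
`∫ φ u⁴ - 3 ∫ φ + o(1)` of their Gaussian values.

Proof idea. (1) Null quartic forms converge to their Gaussian values (products of divergence free
symmetric tensors, compensated compactness). (2) A radial energy estimate gives `h |W_k|² → 0`
locally uniformly, so that all quartic error terms with a factor `h` vanish; this gives the
translation relations. (3) Null forms, translation relations and symmetry determine the fourth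
moments up to one unknown for each even total order. (4) Averages over `k` of `W_{2k} W_{2j-2k}`,
`j ∈ ℤ`, have no Gaussian fluctuations; their Gram matrix is the Toeplitz matrix of the unknowns.
-/

set_option autoImplicit false
open MeasureTheory Filter Topology Complex
open scoped ContDiff ComplexOrder

namespace Pool.Agent.Results.MP_6b977f_mp.FourthOrderDefect

open Pool.Agent.W745.RW (TF dx dy lap Dp W)

/-- the covariance `E[W_a W_b]` of the random wave -/
noncomputable def C (a b : ℤ) : ℂ := if a + b = 0 then (-1) ^ a.natAbs else 0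

/-- the Gaussian fourth moment `E[W_a W_b W_c W_d]` -/
noncomputable def G (a b c d : ℤ) : ℂ := C a b * C c d + C a c * C b d + C a d * C b c

/-- the local fourth moment `∫ φ W_a W_b W_c W_d` -/
noncomputable def M (h : ℝ) (u : ℂ → ℝ) (φ : ℂ → ℝ) (a b c d : ℤ) : ℂ :=
  ∫ z, (φ z : ℂ) * (W h u a z * W h u b z * W h u c z * W h u d z)

/-- for even `a + b + c + d`: `1` if the four integers have the same parity and `-1/3` otherwise;
for odd `a + b + c + d`: `0` -/
noncomputable def ep (a b c d : ℤ) : ℂ :=
  if (a + b + c + d) % 2 = 0 then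
    (if a % 2 = b % 2 ∧ b % 2 = c % 2 ∧ c % 2 = d % 2 then 1 else -(1 / 3)) else 0

/-- **Result.** Let `u n` be real solutions of `Δu + λ_n u = 0` on the open set `Ω ⊆ ℝ²`,
`λ_n → ∞`, which are quantum ergodic on `Ω`, and let `φ ≥ 0` be a test function. There are
`δ n : ℤ → ℂ` such that for each `K` the Toeplitz matrix `(δ n (j - l))_{j, l < K}` is positive
semidefinite for all large `n`, and, for all integers `a, b, c, d`,
`∫ φ W_a W_b W_c W_d = G(a,b,c,d) ∫ φ + ep(a,b,c,d) δ_n((a+b+c+d)/2) + o(1)` (for odd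
`a + b + c + d` one has `ep = 0`). No bound on any moment of order greater than two is assumed. -/
theorem result (Ω : Set ℂ) (hΩ : IsOpen Ω) (lam : ℕ → ℝ) (u : ℕ → ℂ → ℝ)
    (hpos : ∀ n, 0 < lam n) (hlam : Tendsto lam atTop atTop)
    (hu : ∀ n, ContDiffOn ℝ ∞ (u n) Ω)
    (heq : ∀ n, ∀ z ∈ Ω, lap (u n) z + lam n * u n z = 0)
    (hqe : ∀ φ, TF Ω φ → ∀ k : ℕ, Tendsto (fun n => ∫ z, (φ z : ℂ) *
      ((u n z : ℂ) * (Dp (1 / √(lam n)))^[k] (fun w => (u n w : ℂ)) z)) atTop
      (𝓝 (if k = 0 then ((∫ z, φ z : ℝ) : ℂ) else 0)))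
    (φ : ℂ → ℝ) (hφ : TF Ω φ) (hφ0 : ∀ z, 0 ≤ φ z) :
    ∃ δ : ℕ → ℤ → ℂ,
      (∀ K : ℕ, ∀ᶠ n in atTop,
        (Matrix.of fun j l : Fin K => δ n ((j : ℤ) - (l : ℤ))).PosSemidef) ∧
      ∀ a b c d : ℤ, Tendsto (fun n => M (1 / √(lam n)) (u n) φ a b c d -
        G a b c d * ((∫ z, φ z : ℝ) : ℂ) - ep a b c d * δ n ((a + b + c + d) / 2)) atTop
        (𝓝 0) := by
  have hS := Pool.Agent.Y265.RW.raw_sys Ω lam u hpos hlam hu heq hqe
  obtain ⟨δ, h1, h2⟩ := Pool.Agent.Y265.FX.structure4 (Pool.Agent.Y265.FL.frW hΩ hS) hφ hφ0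
  refine ⟨δ, h1, fun a b c d => ?_⟩
  rcases Int.even_or_odd' (a + b + c + d) with ⟨j, hj | hj⟩
  · have e : ep a b c d = Pool.Agent.W745.RW.eps a b c d := by
      unfold ep Pool.Agent.W745.RW.eps
      rw [if_pos (by omega)]
    have e2 : (a + b + c + d) / 2 = j := by omega
    rw [e, e2]
    exact h2 a b c d j hj
  · have k1 : Tendsto (fun n => M (1 / √(lam n)) (u n) φ a b c d) atTop (𝓝 0) :=
      (Pool.Agent.Y265.FL.flat_fourth hΩ hS hφ).1 a b c d j hj
    have e : ep a b c d = 0 := by
      unfold ep
      rw [if_neg (by omega)]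
    have g : G a b c d = 0 := Pool.Agent.Y265.HY.GG_odd hj
    rw [e, g]
    simpa using k1

end Pool.Agent.Results.MP_6b977f_mp.FourthOrderDefect
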