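import Pool.Agent.Y265.RW.Fn3

/-!
# Null four point functions of quantum ergodic eigenfunctions in the plane (MP_6b977f_mp)

The plane is `ℂ`; `dx f z`, `dy f z` are the partial derivatives `fderiv ℝ f z 1`,
`fderiv ℝ f z I`, `lap f = dx (dx f) + dy (dy f)`; `TF Ω φ` says that `φ : ℂ → ℝ` is smooth with
compact support in `Ω`; `Dp h f = h (∂x f - i ∂y f)`; `W h u k` is `(h(∂x - i∂y))^k u` for `k ≥ 0` and
`(-h(∂x + i∂y))^{-k} u` for `k < 0`. All normalised derivatives of a solution of `h²Δu + u = 0` are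
linear combinations of the `W h u k`, `k ∈ ℤ`.
-/

set_option autoImplicit false
open MeasureTheory Filter Topology Complex
open scoped ContDiff

namespace Pool.Agent.Results.MP_6b977f_mp.NullFourPointFunctions

open Pool.Agent.W745.RW

/-- `(2π)⁻¹ ∫ (i e^{-iα})^m exp(i w·(cos α, sin α)) dα` -/
noncomputable def cov (w : ℂ) (m : ℤ) : ℂ :=
  (1 / (2 * Real.pi) : ℝ) * ∫ α in (0:ℝ)..(2 * Real.pi),
    (I * Complex.exp (-(α : ℂ) * I)) ^ m *
      Complex.exp (((w.re * Real.cos α + w.im * Real.sin α : ℝ) : ℂ) * I)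

/-- for the random wave `Ψ` (`h = 1`), the expectation of `W_a Ψ(z) W_b Ψ(z + w)` -/
noncomputable def pv (w : ℂ) (a b : ℤ) : ℂ := (-1) ^ a.natAbs * cov w (a + b)

/-- for the random wave, the expectation of `∏ W_{m i} Ψ(z + w i)` (Wick's formula) -/
noncomputable def wick (w : Fin 4 → ℂ) (m : Fin 4 → ℤ) : ℂ :=
  pv (w 1 - w 0) (m 0) (m 1) * pv (w 3 - w 2) (m 2) (m 3) +
  pv (w 2 - w 0) (m 0) (m 2) * pv (w 3 - w 1) (m 1) (m 3) +
  pv (w 3 - w 0) (m 0) (m 3) * pv (w 2 - w 1) (m 1) (m 2)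

/-- the product `∏ (W_{m i} u)(z + h w i)` -/
noncomputable def pr (h : ℝ) (u : ℂ → ℝ) (w : Fin 4 → ℂ) (m : Fin 4 → ℤ) (z : ℂ) : ℂ :=
  ∏ i, W h u (m i) (z + (h : ℂ) * w i)

lemma pv_eq (w : ℂ) (a b : ℤ) : pv w a b = Pool.Agent.Y265.RW.KW w a b := by
  unfold pv Pool.Agent.Y265.RW.KW
  rw [Pool.Agent.Y265.RW.cvv_eq]
  simp only [cov, Pool.Agent.Y265.RW.yy, Pool.Agent.Y265.RW.sy, Pool.Agent.Y265.RW.rr,
    Complex.ofReal_one, one_mul]

lemma pv_step (w : ℂ) (a b : ℤ) : pv w (a + 1) b = - pv w a (b + 1) := by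
  rw [pv_eq, pv_eq]
  exact eq_neg_of_add_eq_zero_left (Pool.Agent.Y265.RW.KW_step w a b)

lemma pv_two (w : ℂ) (a b : ℤ) : pv w (a + 2) b = - pv w (a + 1) (b + 1) ∧
    pv w a (b + 2) = - pv w (a + 1) (b + 1) := by
  constructor
  · have := pv_step w (a + 1) b
    rwa [show a + 1 + 1 = a + 2 by ring] at this
  · have := pv_step w a (b + 1)
    rw [show b + 1 + 1 = b + 2 by ring] at this
    rw [this, neg_neg]

/-- **Result.** Let `u n` be real solutions of `Δu + λ_n u = 0` on the open set `Ω ⊆ ℝ²`,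
`λ_n → ∞`, which are quantum ergodic on `Ω`. Then (1) the null combinations of four point functions
at the scale of the wavelength, (2) the mean square of the normalised Hessian determinant and
(3) the difference of the fourth moments of `u` and of its normalised gradient converge to their
values for the random wave. No bound on any moment of order greater than two is assumed. -/
theorem result (Ω : Set ℂ) (hΩ : IsOpen Ω) (lam : ℕ → ℝ) (u : ℕ → ℂ → ℝ)
    (hpos : ∀ n, 0 < lam n) (hlam : Tendsto lam atTop atTop)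
    (hu : ∀ n, ContDiffOn ℝ ∞ (u n) Ω)
    (heq : ∀ n, ∀ z ∈ Ω, lap (u n) z + lam n * u n z = 0)
    (hqe : ∀ φ, TF Ω φ → ∀ k : ℕ, Tendsto (fun n => ∫ z, (φ z : ℂ) *
      ((u n z : ℂ) * (Dp (1 / √(lam n)))^[k] (fun w => (u n w : ℂ)) z)) atTop
      (𝓝 (if k = 0 then ((∫ z, φ z : ℝ) : ℂ) else 0)))
    (φ : ℂ → ℝ) (hφ : TF Ω φ) :
    (∀ (w : Fin 4 → ℂ) (a b c d : ℤ), Tendsto (fun n => ∫ z, (φ z : ℂ) *
      (pr (1 / √(lam n)) (u n) w ![a + 2, b + 2, c, d] z -
        2 * pr (1 / √(lam n)) (u n) w ![a + 1, b + 1, c + 1, d + 1] z +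
        pr (1 / √(lam n)) (u n) w ![a, b, c + 2, d + 2] z)) atTop
      (𝓝 ((wick w ![a + 2, b + 2, c, d] - 2 * wick w ![a + 1, b + 1, c + 1, d + 1] +
        wick w ![a, b, c + 2, d + 2]) * (∫ z, φ z : ℝ)))) ∧
    Tendsto (fun n => ∫ z, φ z * ((dx (dx (u n)) z * dy (dy (u n)) z - dx (dy (u n)) z ^ 2) /
      lam n ^ 2) ^ 2) atTop (𝓝 (3 / 16 * ∫ z, φ z)) ∧
    Tendsto (fun n => ∫ z, φ z * (u n z ^ 4 - ((dx (u n) z ^ 2 + dy (u n) z ^ 2) / lam n) ^ 2))
      atTop (𝓝 (∫ z, φ z)) := by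
  have hS := Pool.Agent.Y265.RW.raw_sys Ω lam u hpos hlam hu heq hqe
  have h2 : ∀ n, (1 / √(lam n)) ^ 2 = 1 / lam n := by
    intro n
    rw [div_pow, Real.sq_sqrt (hpos n).le, one_pow]
  have h4 : ∀ n, (1 / √(lam n)) ^ 4 = 1 / lam n ^ 2 := by
    intro n
    rw [show 4 = 2 * 2 by norm_num, pow_mul, h2, div_pow, one_pow]
  refine ⟨fun w a b c d => ?_, ?_, ?_⟩
  · have key := Pool.Agent.Y265.RW.four_null hΩ hS hφ w a b c d
    have e : Pool.Agent.Y265.RW.NC w a b c d = wick w ![a + 2, b + 2, c, d] -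
        2 * wick w ![a + 1, b + 1, c + 1, d + 1] + wick w ![a, b, c + 2, d + 2] := by
      unfold Pool.Agent.Y265.RW.NC wick
      simp only [← pv_eq, Matrix.cons_val]
      obtain ⟨p1, p2⟩ := pv_two (w 2 - w 0) a c
      obtain ⟨p3, p4⟩ := pv_two (w 3 - w 1) b d
      obtain ⟨p5, p6⟩ := pv_two (w 3 - w 0) a d
      obtain ⟨p7, p8⟩ := pv_two (w 2 - w 1) b c
      rw [p1, p2, p3, p4, p5, p6, p7, p8]
      ring
    rw [e] at key
    refine key.congr (fun n => ?_)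
    refine integral_congr_ae (Eventually.of_forall fun z => ?_)
    simp only [pr, Fin.prod_univ_four, Pool.Agent.Y265.RW.WW, Matrix.cons_val]
    ring
  · refine (Pool.Agent.Y265.RW.det_lim hΩ hS hφ).congr (fun n => ?_)
    refine integral_congr_ae (Eventually.of_forall fun z => ?_)
    simp only [h4]
    ring
  · refine (Pool.Agent.Y265.RW.grad_lim hΩ hS hφ).congr (fun n => ?_)
    refine integral_congr_ae (Eventually.of_forall fun z => ?_)
    simp only [h2]
    ring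

end Pool.Agent.Results.MP_6b977f_mp.NullFourPointFunctions
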