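import Pool.Agent.Y265.RW.Fn2

/-!
# Three point functions of quantum ergodic eigenfunctions in the plane (MP_6b977f_mp)

The plane is `ℂ`; `dx f z`, `dy f z` are the partial derivatives `fderiv ℝ f z 1`,
`fderiv ℝ f z I`, `lap f = dx (dx f) + dy (dy f)`; `TF Ω φ` says that `φ : ℂ → ℝ` is smooth with
compact support in `Ω`; `Dp h f = h (∂x f - i ∂y f)`.
-/

set_option autoImplicit false
open MeasureTheory Filter Topology Complex
open scoped ContDiff

namespace Pool.Agent.Results.MP_6b977f_mp.ThreePointFunctions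

open Pool.Agent.W745.RW

/-- the normalised partial derivative `λ^{-(a+b)/2} ∂x^a ∂y^b f` -/
noncomputable def pd (lam : ℝ) (a b : ℕ) (f : ℂ → ℝ) (z : ℂ) : ℝ :=
  (1 / √lam) ^ (a + b) * (dx^[a] (dy^[b] f)) z

/-- **Result.** Let `u n` be real solutions of `Δu + λ_n u = 0` on the open set `Ω ⊆ ℝ²`,
`λ_n → ∞`, which are quantum ergodic on `Ω`: for all test functions `φ` and all `k`,
`∫ φ u (λ^{-1/2}(∂x - i∂y))^k u → δ_{k0} ∫ φ`. Then all local three point functions at the scale of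
the wavelength, of `u n` and of all its normalised derivatives, tend to zero, the value for the
random wave. No bound on any moment of order greater than two is assumed. -/
theorem result (Ω : Set ℂ) (hΩ : IsOpen Ω) (lam : ℕ → ℝ) (u : ℕ → ℂ → ℝ)
    (hpos : ∀ n, 0 < lam n) (hlam : Tendsto lam atTop atTop)
    (hu : ∀ n, ContDiffOn ℝ ∞ (u n) Ω)
    (heq : ∀ n, ∀ z ∈ Ω, lap (u n) z + lam n * u n z = 0)
    (hqe : ∀ φ, TF Ω φ → ∀ k : ℕ, Tendsto (fun n => ∫ z, (φ z : ℂ) *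
      ((u n z : ℂ) * (Dp (1 / √(lam n)))^[k] (fun w => (u n w : ℂ)) z)) atTop
      (𝓝 (if k = 0 then ((∫ z, φ z : ℝ) : ℂ) else 0)))
    (φ : ℂ → ℝ) (hφ : TF Ω φ) (a b : Fin 3 → ℕ) (w : Fin 3 → ℂ) :
    Tendsto (fun n => ∫ z, φ z * ∏ i, pd (lam n) (a i) (b i) (u n)
      (z + ((1 / √(lam n) : ℝ) : ℂ) * w i)) atTop (𝓝 0) :=
  Pool.Agent.Y265.RW.three_pdv hΩ (Pool.Agent.Y265.RW.raw_sys Ω lam u hpos hlam hu heq hqe) a b w hφ

end Pool.Agent.Results.MP_6b977f_mp.ThreePointFunctions
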