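import Pool.Agent.Y139.PD.L

/-!
# The value distribution of high energy eigenfunctions of planar domains (MP_6b977f_mp)

`Ω ⊆ ℂ` is a domain of finite area, `u n` are real functions with `Δ u + λ u = 0` in `Ω`,
normalised by `‖u n‖² = |Ω|`; no boundary condition is used. `lapl f = ∂x² f + ∂y² f` is the
definition of the file `AbsoluteContinuity` of MP_a52643_an.
-/

set_option autoImplicit false
open MeasureTheory Filter Topology Complex
open scoped ContDiff ENNReal

namespace Pool.Agent.Results.MP_6b977f_mp.ValueDistribution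

noncomputable section

open Pool.Agent.Results.MP_a52643_an.AbsoluteContinuity (lapl)
open Pool.Agent.Y139.PD (GHyp refl refl_ap refl_Ici vol_neg shape gA gP glaw glaw_ap glaw_int
  glaw_integrable gac gmean passA mean' exists_cut)

/-- the fraction of the area of `Ω` on which `f` takes a value in `A` -/
def fraction (Ω : Set ℂ) (f : ℂ → ℝ) (A : Set ℝ) : ℝ :=
  (volume {z | z ∈ Ω ∧ f z ∈ A}).toReal / (volume Ω).toReal

/-- the values beyond `b`, seen from zero: `t ≥ b` if `b > 0`, and `t ≤ b` if `b < 0` -/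
def Beyond (b : ℝ) : Set ℝ := {t | b ∈ Set.uIcc 0 t}

/-- `ν` is the weak limit, along a subsequence, of the laws of `u n` for the normalised area -/
def IsWeakLimit (Ω : Set ℂ) (u : ℕ → ℂ → ℝ) (ν : Measure ℝ) : Prop :=
  ∃ σ : ℕ → ℕ, StrictMono σ ∧ ∀ g : ℝ → ℝ, Continuous g → (∃ M, ∀ x, |g x| ≤ M) →
    Tendsto (fun n => (∫ z in Ω, g (u (σ n) z)) / (volume Ω).toReal) atTop (𝓝 (∫ x, g x ∂ν))

lemma Beyond_pos {b : ℝ} (hb : 0 < b) : Beyond b = Set.Ici b := by
  ext t
  show b ∈ Set.uIcc 0 t ↔ b ≤ t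
  constructor
  · intro h
    rcases le_total 0 t with ht | ht
    · rw [Set.uIcc_of_le ht] at h; exact h.2
    · rw [Set.uIcc_of_ge ht] at h
      exact absurd h.2 (not_le.2 hb)
  · intro h
    rw [Set.uIcc_of_le (hb.le.trans h)]
    exact ⟨hb.le, h⟩

lemma Beyond_neg {b : ℝ} (hb : b < 0) : Beyond b = Set.Iic b := by
  ext t
  show b ∈ Set.uIcc 0 t ↔ t ≤ b
  constructor
  · intro h
    rcases le_total 0 t with ht | ht
    · rw [Set.uIcc_of_le ht] at h
      exact absurd h.1 (not_le.2 hb)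
    · rw [Set.uIcc_of_ge ht] at h; exact h.1
  · intro h
    rw [Set.uIcc_of_ge (h.trans hb.le)]
    exact ⟨h, hb.le⟩

lemma weak_neg {Ω : Set ℂ} {u : ℕ → ℂ → ℝ} {ν : Measure ℝ} (h : IsWeakLimit Ω u ν) :
    IsWeakLimit Ω (fun n z => -u n z) (refl ν) := by
  obtain ⟨σ, hσ, hg⟩ := h
  refine ⟨σ, hσ, fun g cg bg => ?_⟩
  obtain ⟨M, hM⟩ := bg
  have h1 := hg (fun t => g (-t)) (cg.comp continuous_neg) ⟨M, fun x => hM _⟩
  have e : ∫ x, g x ∂(refl ν) = ∫ x, g (-x) ∂ν :=
    integral_map_equiv (MeasurableEquiv.neg ℝ) g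
  rw [e]
  exact h1

lemma weak_tendsto {Ω : Set ℂ} {lam : ℕ → ℝ} {u : ℕ → ℂ → ℝ} (G : GHyp Ω lam u) {ν : Measure ℝ}
    (hp : IsProbabilityMeasure ν) {σ : ℕ → ℕ}
    (h : ∀ g : ℝ → ℝ, Continuous g → (∃ M, ∀ x, |g x| ≤ M) →
      Tendsto (fun n => (∫ z in Ω, g (u (σ n) z)) / (volume Ω).toReal) atTop (𝓝 (∫ x, g x ∂ν))) :
    Tendsto (fun n => gP G (σ n)) atTop (𝓝 (⟨ν, hp⟩ : ProbabilityMeasure ℝ)) := by
  rw [ProbabilityMeasure.tendsto_iff_forall_integral_tendsto]
  intro g
  have h1 := h g g.continuous ⟨‖g‖, fun x => g.norm_coe_le_norm x⟩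
  refine h1.congr fun n => ?_
  exact (glaw_int G (σ n) g.continuous).symm

/-- **The value distribution of high energy eigenfunctions of planar domains.** -/
theorem result : ∃ C : ℝ, ∀ (Ω : Set ℂ) (lam : ℕ → ℝ) (u : ℕ → ℂ → ℝ), IsOpen Ω → Ω.Nonempty →
    volume Ω ≠ ⊤ → Tendsto lam atTop atTop → (∀ n, ContDiffOn ℝ ∞ (u n) Ω) →
    (∀ n, ∀ z ∈ Ω, lapl (u n) z + lam n * u n z = 0) →
    (∀ n, IntegrableOn (fun z => u n z ^ 2) Ω volume) →
    (∀ n, ∫ z in Ω, u n z ^ 2 = (volume Ω).toReal) →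
      (∀ ε : ℝ, 0 < ε → ∀ᶠ n in atTop, ∀ (b : ℝ) (A : Set ℝ), MeasurableSet A →
        A ⊆ Set.uIoo 0 b → ε ≤ |b| * fraction Ω (u n) (Beyond b) →
        (volume A).toReal * (|b| * fraction Ω (u n) (Beyond b)) ^ 3 ≤
          C * fraction Ω (u n) A) ∧
      ∀ ν : Measure ℝ, IsProbabilityMeasure ν → IsWeakLimit Ω u ν →
        (Integrable (fun x => x ^ 2) ν ∧ ∫ x, x ^ 2 ∂ν ≤ 1 ∧ ∫ x, x ∂ν = 0) ∧
        (∀ (b : ℝ) (A : Set ℝ), MeasurableSet A → A ⊆ Set.uIoo 0 b →
          (volume A).toReal * (|b| * (ν (Beyond b)).toReal) ^ 3 ≤ C * (ν A).toReal) ∧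
        (ν {0} = 1 ∨ ∃ J : Set ℝ, IsOpen J ∧ J.OrdConnected ∧ (0 : ℝ) ∈ J ∧
          ν.restrict {0}ᶜ ≪ volume.restrict J ∧ volume.restrict J ≪ ν.restrict {0}ᶜ) := by
  obtain ⟨k, C, C0, sk, k4, k2, k1, k3⟩ := exists_cut
  refine ⟨8192 * C ^ 2, ?_⟩
  intro Ω lam u hΩ hne hfin hlam hu he hi h2
  have G : GHyp Ω lam u := ⟨hΩ, hne, hfin, hlam, hu, he, hi, fun n => (h2 n).le⟩
  have G' := G.neg
  have V0 := G.pos
  have D0 : (0 : ℝ) ≤ 8192 * C ^ 2 := by positivity
  have uo : ∀ {b : ℝ}, 0 < b → Set.uIoo 0 b = Set.Ioo 0 b := fun hb => Set.uIoo_of_lt hb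
  have un : ∀ {b : ℝ}, b < 0 → Set.uIoo 0 b = Set.Ioo b 0 := fun hb => Set.uIoo_of_gt hb
  refine ⟨fun ε ε0 => ?_, fun ν hν hlim => ?_⟩
  · filter_upwards [gA G C0 sk k4 k2 k1 k3 ε0, gA G' C0 sk k4 k2 k1 k3 ε0] with n p1 p2 b A mA hA hb
    rcases lt_trichotomy b 0 with h | h | h
    · rw [Beyond_neg h, abs_of_neg h] at hb ⊢
      rw [un h] at hA
      have e1 : Pool.Agent.Y139.PD.frac Ω (fun z => -u n z) (Set.Ici (-b)) =
          fraction Ω (u n) (Set.Iic b) := by
        unfold Pool.Agent.Y139.PD.frac fraction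
        have : {z | z ∈ Ω ∧ -u n z ∈ Set.Ici (-b)} = {z | z ∈ Ω ∧ u n z ∈ Set.Iic b} := by
          ext z
          show (z ∈ Ω ∧ -b ≤ -u n z) ↔ (z ∈ Ω ∧ u n z ≤ b)
          rw [neg_le_neg_iff]
        rw [this]
      have e2 : Pool.Agent.Y139.PD.frac Ω (fun z => -u n z) {t | -t ∈ A} =
          fraction Ω (u n) A := by
        unfold Pool.Agent.Y139.PD.frac fraction
        have : {z | z ∈ Ω ∧ -u n z ∈ {t | -t ∈ A}} = {z | z ∈ Ω ∧ u n z ∈ A} := by
          ext z
          show (z ∈ Ω ∧ - -u n z ∈ A) ↔ (z ∈ Ω ∧ u n z ∈ A)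
          rw [neg_neg]
        rw [this]
      have q := p2 (-b) (by linarith) (by rw [e1]; exact hb) {t | -t ∈ A} (measurable_neg mA)
        (fun t ht => by
          have := hA ht
          exact ⟨by linarith [this.2], by linarith [this.1]⟩)
      rw [e1, e2, vol_neg] at q
      exact q
    · rw [h, abs_zero, zero_mul] at hb
      linarith
    · rw [Beyond_pos h, abs_of_pos h] at hb ⊢
      rw [uo h] at hA
      exact p1 b h hb A mA hA
  · obtain ⟨σ, hσ, hg⟩ := hlim
    obtain ⟨σ', hσ', hg'⟩ := weak_neg ⟨σ, hσ, hg⟩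
    have hν' : IsProbabilityMeasure (refl ν) := ⟨by
      rw [refl_ap]
      exact hν.measure_univ⟩
    have T1 := weak_tendsto G hν hg
    have T2 := weak_tendsto G' hν' hg'
    have posi : ∀ b, 0 < b → ∀ A, MeasurableSet A → A ⊆ Set.Ioo 0 b →
        (volume A).toReal * (b * (ν (Set.Ici b)).toReal) ^ 3 ≤
          8192 * C ^ 2 * (ν A).toReal := by
      intro b b0 A mA hA
      refine passA T1 (fun ε ε0 => ?_) D0 b0 mA hA
      filter_upwards [hσ.tendsto_atTop.eventually (gA G C0 sk k4 k2 k1 k3 ε0)] with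
        n hn b b0 hb A mA hA
      have e1 : ((gP G (σ n) : ProbabilityMeasure ℝ) : Measure ℝ) = glaw Ω (u (σ n)) := rfl
      rw [e1, glaw_ap G (σ n) measurableSet_Ici] at hb ⊢
      rw [glaw_ap G (σ n) mA]
      exact hn b b0 hb A mA hA
    have nega : ∀ b, 0 < b → ∀ A, MeasurableSet A → A ⊆ Set.Ioo 0 b →
        (volume A).toReal * (b * (refl ν (Set.Ici b)).toReal) ^ 3 ≤
          8192 * C ^ 2 * (refl ν A).toReal := by
      intro b b0 A mA hA
      refine passA T2 (fun ε ε0 => ?_) D0 b0 mA hA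
      filter_upwards [hσ'.tendsto_atTop.eventually (gA G' C0 sk k4 k2 k1 k3 ε0)] with
        n hn b b0 hb A mA hA
      have e1 : ((gP G' (σ' n) : ProbabilityMeasure ℝ) : Measure ℝ) =
          glaw Ω (fun z => -u (σ' n) z) := rfl
      rw [e1, glaw_ap G' (σ' n) measurableSet_Ici] at hb ⊢
      rw [glaw_ap G' (σ' n) mA]
      exact hn b b0 hb A mA hA
    have mm := mean' T1 (m := 1) (fun n => glaw_integrable G (σ n) (continuous_pow 2)
      (G.l2 (σ n))) (fun n => by
        have e1 : ∫ x, x ^ 2 ∂((gP G (σ n) : ProbabilityMeasure ℝ) : Measure ℝ) =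
          (∫ z in Ω, u (σ n) z ^ 2) / (volume Ω).toReal := glaw_int G (σ n) (continuous_pow 2)
        rw [e1, h2, div_self V0.ne']) (by
        refine ((gmean G).comp hσ.tendsto_atTop).congr fun n => ?_
        exact (glaw_int G (σ n) continuous_id).symm)
    obtain ⟨m1, m2, m3, m4⟩ := mm
    have ac := gac G hσ T1
    refine ⟨⟨m1, m2, m4⟩, fun b A mA hA => ?_, ?_⟩
    · rcases lt_trichotomy b 0 with h | h | h
      · rw [Beyond_neg h, abs_of_neg h]
        rw [un h] at hA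
        have q := nega (-b) (by linarith) {t | -t ∈ A} (measurable_neg mA) (fun t ht => by
            have := hA ht
            exact ⟨by linarith [this.2], by linarith [this.1]⟩)
        rw [refl_Ici, neg_neg, vol_neg, refl_ap] at q
        have e2 : {t : ℝ | -t ∈ {t | -t ∈ A}} = A := by
          ext t
          show - -t ∈ A ↔ t ∈ A
          rw [neg_neg]
        rw [e2] at q
        exact q
      · rw [h, abs_zero, zero_mul]
        have : 0 ≤ 8192 * C ^ 2 * (ν A).toReal := by positivity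
        simpa using this
      · rw [Beyond_pos h, abs_of_pos h]
        rw [uo h] at hA
        exact posi b h A mA hA
    · -- from measurable sets to all sets
      have up : ∀ {μ : Measure ℝ}, IsFiniteMeasure μ →
          (∀ b, 0 < b → ∀ A, MeasurableSet A → A ⊆ Set.Ioo 0 b →
            (volume A).toReal * (b * (μ (Set.Ici b)).toReal) ^ 3 ≤
              8192 * C ^ 2 * (μ A).toReal) →
          ∀ b, 0 < b → ∀ A, A ⊆ Set.Ioo 0 b →
            (volume A).toReal * (b * (μ (Set.Ici b)).toReal) ^ 3 ≤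
              8192 * C ^ 2 * (μ A).toReal := by
        intro μ hμ hh b b0 A hA
        have q := hh b b0 (toMeasurable μ A ∩ Set.Ioo 0 b)
          ((measurableSet_toMeasurable μ A).inter measurableSet_Ioo) Set.inter_subset_right
        have q1 : volume A ≤ volume (toMeasurable μ A ∩ Set.Ioo 0 b) :=
          measure_mono (Set.subset_inter (subset_toMeasurable μ A) hA)
        have q2 : volume (toMeasurable μ A ∩ Set.Ioo 0 b) ≠ ⊤ :=
          ne_top_of_le_ne_top (by simp) (measure_mono Set.inter_subset_right :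
            volume (toMeasurable μ A ∩ Set.Ioo 0 b) ≤ volume (Set.Ioo 0 b))
        have q3 : μ (toMeasurable μ A ∩ Set.Ioo 0 b) ≤ μ A :=
          (measure_mono Set.inter_subset_left).trans (measure_toMeasurable A).le
        have y0 : 0 ≤ (b * (μ (Set.Ici b)).toReal) ^ 3 :=
          pow_nonneg (mul_nonneg b0.le ENNReal.toReal_nonneg) 3
        exact (mul_le_mul_of_nonneg_right (ENNReal.toReal_mono q2 q1) y0).trans
          (q.trans (mul_le_mul_of_nonneg_left
            (ENNReal.toReal_mono (measure_ne_top μ A) q3) D0))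
      rcases shape ac m3 m4 (up inferInstance posi) (up inferInstance nega) with h | h
      · left
        have := prob_compl_eq_zero_iff (μ := ν) (measurableSet_singleton (0 : ℝ))
        exact this.1 h
      · exact Or.inr h

end

end Pool.Agent.Results.MP_6b977f_mp.ValueDistribution
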